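import Pool.Agent.Helper52.SM.Goals
import Pool.Agent.Helper81.CompC
import Pool.Agent.Helper61.DT.GAP
import Pool.Agent.Helper9.AO.MAP

/-!
# SM-RSM, SM-RMC, SM-CTM: restricted algorithms
-/

set_option autoImplicit false

namespace Pool.Agent.Helper78.SM

open Pool.Agent.Helper81.CC Pool.Agent.Helper78.PM Pool.Agent.Helper78.DT Pool.Agent.Helper52.SM
open scoped Classical

theorem fixa_append (act : View → ℕ) (x : List Bool) (s : List (ℕ × Bool)) (i : ℕ) (M : Mem)
    (raw : List Bool) (b : Bool) : fixa act x s i M (raw ++ [b]) =
      fixa act x s i M raw ++ [ovb s (act (x, i, M, fixa act x s i M raw) - 4) b] := by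
  unfold fixa
  rw [List.foldl_append]
  rfl

theorem fixa_length (act : View → ℕ) (x : List Bool) (s : List (ℕ × Bool)) (i : ℕ) (M : Mem)
    (raw : List Bool) : (fixa act x s i M raw).length = raw.length := by
  induction raw using List.reverseRecOn with
  | nil => rfl
  | append_singleton l b ih => rw [fixa_append]; simp [ih]

theorem fixm_append (act : View → ℕ) (x : List Bool) (s : List (ℕ × Bool)) (M : Mem)
    (e : ℕ × List Bool) : fixm act x s (M ++ [e]) =
      fixm act x s M ++ [(e.1, fixa act x s e.1 (fixm act x s M) e.2)] := by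
  unfold fixm
  rw [List.foldl_append]
  rfl

theorem fixm_msize (act : View → ℕ) (x : List Bool) (s : List (ℕ × Bool)) (M : Mem) :
    msize (fixm act x s M) = msize M := by
  induction M using List.reverseRecOn with
  | nil => rfl
  | append_singleton l b ih =>
    rw [fixm_append]
    unfold msize at *
    simp [ih, fixa_length]

theorem bits_length' (a : View → ℕ) (z : List Bool) (b : ℕ → Bool) (i : ℕ) (M : Mem) (k : ℕ) :
    (bits a z b i M k).length ≤ k := by
  induction k with
  | zero => simp [bits]
  | succ k ih =>
    rw [bits]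
    split_ifs
    · simp; omega
    · omega

theorem bits_stop' (a : View → ℕ) (z : List Bool) (b : ℕ → Bool) (i : ℕ) (M : Mem) (k : ℕ) :
    4 ≤ a (z, i, M, bits a z b i M k) → (bits a z b i M k).length = k := by
  induction k with
  | zero => intro _; rfl
  | succ k ih =>
    intro h
    rw [bits] at h ⊢
    by_cases h1 : 4 ≤ a (z, i, M, bits a z b i M k)
    · rw [if_pos h1]
      simp [ih h1]
    · rw [if_neg h1] at h
      exact absurd h h1

section
variable (act act' : View → ℕ) (c : ℕ) (x x' : List Bool) (s : List (ℕ × Bool))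
  (b : ℕ → Bool) (hact : ∀ i M a, act' (x', i, M, a) = actR act c x s i M a)
include hact

theorem bits_fix' (i : ℕ) (M : Mem) (k : ℕ) (hk : k ≤ bd c x) :
    fixa act x s i (fixm act x s M) (bits act' x' b i M k) =
      bits act x (ov s b) i (fixm act x s M) k ∧
    (bits act' x' b i M k).length = (bits act x (ov s b) i (fixm act x s M) k).length := by
  induction k with
  | zero => exact ⟨rfl, rfl⟩
  | succ k ih =>
    obtain ⟨h1, h2⟩ := ih (by omega)
    rw [bits, bits]
    have h3 : (bits act' x' b i M k).length ≤ k := bits_length' act' x' b i M k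
    have h4 := hact i M (bits act' x' b i M k)
    unfold actR at h4
    simp only [h1] at h4
    by_cases h5 : 4 ≤ act (x, i, fixm act x s M, bits act x (ov s b) i (fixm act x s M) k)
    · rw [if_pos h5, if_pos (by omega)] at h4
      rw [h4, if_pos h5, if_pos h5]
      refine ⟨?_, by simp [h2]⟩
      rw [fixa_append, h1]
      rfl
    · rw [if_neg h5] at h4
      have h6 : ¬ 4 ≤ act' (x', i, M, bits act' x' b i M k) := by
        rw [h4]
        split_ifs <;> omega
      rw [if_neg h5, if_neg h6]
      exact ⟨h1, h2⟩

theorem bits_bd' (i : ℕ) (M : Mem) (k : ℕ) (hk : bd c x ≤ k) :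
    bits act' x' b i M k = bits act' x' b i M (bd c x) := by
  induction k, hk using Nat.le_induction with
  | base => rfl
  | succ k hk ih =>
    rw [bits, ih]
    rw [if_neg]
    intro h
    have h1 := bits_stop' act' x' b i M (bd c x) h
    rw [hact] at h
    unfold actR at h
    split_ifs at h with h2 h3 h4 h5
    all_goals omega

end

/-- **RSM.** The simulation. -/
theorem rsm : RsmStmt := by
  intro act act' c x x' s b hx hact n
  induction n with
  | zero => intro i M; rfl
  | succ n ih =>
    intro i M
    rw [run, run, bits_bd' act act' c x x' s b hact i M _ hx]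
    obtain ⟨h1, h2⟩ := bits_fix' act act' c x x' s b hact i M (bd c x) le_rfl
    have h3 := bits_length' act' x' b i M (bd c x)
    have h4 := hact i M (bits act' x' b i M (bd c x))
    unfold actR at h4
    simp only [h1] at h4
    have h7 := bits_stop' act x (ov s b) i (fixm act x s M) (bd c x)
    have h8 : fixm act x s (M ++ [(i, bits act' x' b i M (bd c x))]) = fixm act x s M ++
        [(i, bits act x (ov s b) i (fixm act x s M) (bd c x))] := by
      rw [fixm_append, h1]
    rw [fixm_msize, ih, ih, h8, h4]
    clear h4 h8 ih h1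
    generalize bits act x (ov s b) i (fixm act x s M) (bd c x) = l at *
    generalize bits act' x' b i M (bd c x) = raw at *
    generalize act (x, i, fixm act x s M, l) = v at *
    generalize run act c x (ov s b) n (i + 1) (fixm act x s M) = R0
    generalize run act c x (ov s b) n (i + 1) (fixm act x s M ++ [(i, l)]) = R1
    by_cases hv1 : v = 1
    · subst hv1; simp
    by_cases hv2 : v = 2
    · subst hv2; simp
    by_cases hv3 : v = 3
    · subst hv3
      by_cases h9 : msize M + raw.length ≤ bd c x
      · have h10 : msize M + l.length ≤ bd c x := by omega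
        have h11 : msize M + raw.length ≤ bd c x' := by omega
        simp [h9, h10, h11]
      · have h10 : ¬ msize M + l.length ≤ bd c x := by omega
        simp [h9, h10]
    · by_cases h9 : 4 ≤ v
      · have h10 := h7 h9
        have h11 : ¬ raw.length < bd c x := by omega
        simp [h9, h11, hv1, hv2, hv3]
      · have h12 : v = 0 := by omega
        subst h12
        simp

/-! ### Polynomial time -/

section
variable {γ : Type} [ToData γ]

theorem pt_ovb {v : γ → ℕ} {s : γ → List (ℕ × Bool)} {b : γ → Bool}
    (hs : PolyTime s) (hv : PolyTime v) (hb : PolyTime b) :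
    PolyTime fun c => ovb (s c) (v c) (b c) := by
  unfold ovb
  have h1 : PolyTime fun c => (s c).contains (v c, true) :=
    PolyTime.contains (f := fun c => (v c, true)) (by fun_prop) hs
  have h2 : PolyTime fun c => (s c).contains (v c, false) :=
    PolyTime.contains (f := fun c => (v c, false)) (by fun_prop) hs
  exact PolyTime.ite h1 (by fun_prop) (PolyTime.ite h2 (by fun_prop) hb)

theorem pt_fixa {act : γ → View → ℕ} {x : γ → List Bool} {s : γ → List (ℕ × Bool)}
    {i : γ → ℕ} {M : γ → Mem} {raw : γ → List Bool}
    (ha : PolyTime fun z : γ × View => act z.1 z.2) (hx : PolyTime x)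
    (hs : PolyTime s) (hi : PolyTime i) (hM : PolyTime M) (hr : PolyTime raw) :
    PolyTime fun c => fixa (act c) (x c) (s c) (i c) (M c) (raw c) := by
  unfold fixa
  refine PolyTime.foldl_add (step := fun c (acc : List Bool) (b : Bool) =>
    acc ++ [ovb (s c) (act c (x c, i c, M c, acc) - 4) b]) hr (by fun_prop) ?_ (C := fun _ => 4)
    (PBd.const 4) ?_
  · have hx' : PolyTime fun z : γ × List Bool × Bool => x z.1 := PolyTime.comp hx (by fun_prop)
    have hi' : PolyTime fun z : γ × List Bool × Bool => i z.1 := PolyTime.comp hi (by fun_prop)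
    have hM' : PolyTime fun z : γ × List Bool × Bool => M z.1 := PolyTime.comp hM (by fun_prop)
    have h0 : PolyTime fun z : γ × List Bool × Bool => act z.1 (x z.1, i z.1, M z.1, z.2.1) :=
      PolyTime.comp (g := fun z : γ × View => act z.1 z.2)
        (f := fun z : γ × List Bool × Bool => (z.1, (x z.1, i z.1, M z.1, z.2.1))) ha
        (by fun_prop)
    have h1 := PolyTime.sub h0 (g := fun _ => 4) (by fun_prop)
    have h2 : PolyTime fun z : γ × List Bool × Bool =>
        ovb (s z.1) (act z.1 (x z.1, i z.1, M z.1, z.2.1) - 4) z.2.2 :=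
      pt_ovb (PolyTime.comp hs (by fun_prop)) h1 (by fun_prop)
    fun_prop
  · intro c acc b _
    have h1 := sz_append acc [ovb (s c) (act c (x c, i c, M c, acc) - 4) b]
    have h2 := sz_bool (ovb (s c) (act c (x c, i c, M c, acc) - 4) b)
    rw [sz_cons, sz_nil] at h1
    omega

theorem sz_bits_le' (l : List Bool) : sz l ≤ 4 * l.length + 1 := by
  induction l with
  | nil => simp
  | cons b l ih =>
    rw [sz_cons, List.length_cons]
    have := sz_bool b
    omega

theorem pt_fixm {act : γ → View → ℕ} {x : γ → List Bool} {s : γ → List (ℕ × Bool)} {M : γ → Mem}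
    (ha : PolyTime fun z : γ × View => act z.1 z.2) (hx : PolyTime x)
    (hs : PolyTime s) (hM : PolyTime M) :
    PolyTime fun c => fixm (act c) (x c) (s c) (M c) := by
  unfold fixm
  refine PolyTime.foldl_add (step := fun c (N : Mem) (e : ℕ × List Bool) =>
    N ++ [(e.1, fixa (act c) (x c) (s c) e.1 N e.2)]) hM (by fun_prop) ?_
    (C := fun c => 6 * sz (M c) + 6) ?_ ?_
  · have h1 : PolyTime fun z : γ × Mem × (ℕ × List Bool) =>
        fixa (act z.1) (x z.1) (s z.1) z.2.2.1 z.2.1 z.2.2.2 := by
      refine pt_fixa (γ := γ × Mem × (ℕ × List Bool)) (act := fun z => act z.1) ?_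
        (PolyTime.comp hx (by fun_prop)) (PolyTime.comp hs (by fun_prop)) (by fun_prop)
        (by fun_prop) (by fun_prop)
      exact PolyTime.comp (g := fun z : γ × View => act z.1 z.2)
        (f := fun w : (γ × Mem × (ℕ × List Bool)) × View => (w.1.1, w.2)) ha (by fun_prop)
    fun_prop
  · exact ((PBd.const 6).mul (PBd.sz.comp hM)).add (PBd.const 6)
  · intro c N e he
    have h1 := sz_append N [(e.1, fixa (act c) (x c) (s c) e.1 N e.2)]
    have h2 := sz_bits_le' (fixa (act c) (x c) (s c) e.1 N e.2)
    rw [fixa_length] at h2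
    have h3 := sz_le_of_mem he
    have h4 : sz e = 2 * e.1 + 1 + sz e.2 + 1 := by
      obtain ⟨i, l⟩ := e
      rw [sz_pair, sz_nat]
    have h5 := length_le_sz e.2
    rw [sz_cons, sz_nil, sz_pair, sz_nat] at h1
    omega

theorem pt_actR (k : ℕ) {act : γ → View → ℕ} {x : γ → List Bool}
    {s : γ → List (ℕ × Bool)} {i : γ → ℕ} {M : γ → Mem} {a : γ → List Bool}
    (ha : PolyTime fun z : γ × View => act z.1 z.2) (hx : PolyTime x)
    (hs : PolyTime s) (hi : PolyTime i) (hM : PolyTime M) (hl : PolyTime a) :
    PolyTime fun c => actR (act c) k (x c) (s c) (i c) (M c) (a c) := by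
  have hfM : PolyTime fun c => fixm (act c) (x c) (s c) (M c) := pt_fixm ha hx hs hM
  have hfl : PolyTime fun c => fixa (act c) (x c) (s c) (i c) (fixm (act c) (x c) (s c) (M c))
      (a c) := pt_fixa ha hx hs hi hfM hl
  have hv : PolyTime fun c => act c (x c, i c, fixm (act c) (x c) (s c) (M c),
      fixa (act c) (x c) (s c) (i c) (fixm (act c) (x c) (s c) (M c)) (a c)) :=
    PolyTime.comp (g := fun z : γ × View => act z.1 z.2)
      (f := fun c => (c, (x c, i c, fixm (act c) (x c) (s c) (M c),
        fixa (act c) (x c) (s c) (i c) (fixm (act c) (x c) (s c) (M c)) (a c)))) ha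
      (by fun_prop)
  have hb : PolyTime fun c => bd k (x c) := by
    unfold bd
    have h1 : PolyTime fun c => Nat.log 2 (x c).length :=
      Pool.Agent.Helper61.DT.PT_log (by fun_prop)
    fun_prop
  have hms : PolyTime fun c => msize (M c) := by
    unfold msize
    refine PolyTime.sum (PolyTime.list_map (f := fun _ (e : ℕ × List Bool) => e.2.length) hM ?_)
    fun_prop
  have hal : PolyTime fun c => (a c).length := by fun_prop
  unfold actR
  refine PolyTime.itep (PolyTime.decide_le (by fun_prop) hv)
    (PolyTime.itep (PolyTime.decide_lt hal hb) hv (by fun_prop))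
    (PolyTime.itep (PolyTime.decide_eq hv (by fun_prop))
      (PolyTime.itep (PolyTime.decide_le (PolyTime.add hms hal) hb) (by fun_prop) (by fun_prop))
      hv)

end

/-! ### The restricted machine -/

/-- The type of the decoded inputs. -/
abbrev Inp' := List Bool × List (ℕ × Bool) × ℕ

/-- Decoding. -/
def dec' (w : List Bool) : Inp' := OfData.ofData (parse w)

theorem dec_code (x : List Bool) (s : List (ℕ × Bool)) (N : ℕ) : dec' (code x s N) = (x, s, N) := by
  unfold dec' code
  show OfData.ofData (parse (toData (x, s, N)).enc) = (x, s, N)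
  rw [parse_enc, OfData.ofData_toData]

theorem dec_pt' : PolyTime dec' := by
  unfold dec'
  fun_prop

/-- The restricted machine. -/
def rmc (A : Machine) (c : ℕ) : Machine where
  m w := A.m (dec' w).1
  T w := A.T (dec' w).1
  r w := if (dec' w).1.length ≤ w.length then A.r (dec' w).1 else 0
  act y := actR (fun z => A.act (y.1, z)) c (dec' y.2.1).1 (dec' y.2.1).2.1 y.2.2.1 y.2.2.2.1
    y.2.2.2.2
  out y := A.out ((dec' y.1).1, y.2)
  m_poly := by
    refine PolyTime.computable ?_
    have h1 : PolyTime fun w => (dec' w).1 := PolyTime.comp (g := fun z : Inp' => z.1)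
      (by fun_prop) dec_pt'
    exact PolyTime.comp (g := A.m) (Pool.Agent.Helper61.DT.PT_of_comp' A.m_poly) h1
  T_poly := by
    refine PolyTime.computable ?_
    have h1 : PolyTime fun w => (dec' w).1 := PolyTime.comp (g := fun z : Inp' => z.1)
      (by fun_prop) dec_pt'
    exact PolyTime.comp (g := A.T) (Pool.Agent.Helper61.DT.PT_of_comp' A.T_poly) h1
  r_poly := by
    refine PolyTime.computable ?_
    have h1 : PolyTime fun w => (dec' w).1 := PolyTime.comp (g := fun z : Inp' => z.1)
      (by fun_prop) dec_pt'
    have h2 : PolyTime fun w => A.r (dec' w).1 :=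
      PolyTime.comp (g := A.r) (Pool.Agent.Helper61.DT.PT_of_comp' A.r_poly) h1
    have h3 : PolyTime fun w => (dec' w).1.length := PolyTime.length h1
    exact PolyTime.itep (PolyTime.decide_le h3 (by fun_prop)) h2 (by fun_prop)
  act_poly := by
    refine PolyTime.computable ?_
    have h0 : PolyTime fun y : ℕ × View => dec' y.2.1 := PolyTime.comp dec_pt' (by fun_prop)
    have h1 : PolyTime fun y : ℕ × View => (dec' y.2.1).1 :=
      PolyTime.comp (g := fun z : Inp' => z.1) (by fun_prop) h0
    have h2 : PolyTime fun y : ℕ × View => (dec' y.2.1).2.1 :=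
      PolyTime.comp (g := fun z : Inp' => z.2.1) (by fun_prop) h0
    have h4 : PolyTime fun z : (ℕ × View) × View => A.act (z.1.1, z.2) :=
      PolyTime.comp (g := A.act) (f := fun z : (ℕ × View) × View => (z.1.1, z.2))
        (Pool.Agent.Helper61.DT.PT_of_comp' A.act_poly) (by fun_prop)
    exact pt_actR c (act := fun (y : ℕ × View) z => A.act (y.1, z)) h4 h1 h2 (by fun_prop)
      (by fun_prop) (by fun_prop)
  out_poly := by
    refine PolyTime.computable ?_
    have h0 : PolyTime fun y : List Bool × List Bool => dec' y.1 :=
      PolyTime.comp dec_pt' (by fun_prop)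
    have h1 : PolyTime fun y : List Bool × List Bool => (dec' y.1).1 :=
      PolyTime.comp (g := fun z : Inp' => z.1) (by fun_prop) h0
    exact PolyTime.comp (g := A.out) (f := fun y : List Bool × List Bool => ((dec' y.1).1, y.2))
      (Pool.Agent.Helper61.DT.PT_of_comp' A.out_poly) (by fun_prop)

theorem code_length (x : List Bool) (s : List (ℕ × Bool)) (N : ℕ) :
    x.length ≤ (code x s N).length ∧ N ≤ (code x s N).length := by
  have h1 : sz ((x, s, N) : Inp') = sz x + (sz s + (2 * N + 1) + 1) + 1 := by
    rw [sz_pair, sz_pair, sz_nat]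
  have h2 := length_le_sz x
  constructor
  · show x.length ≤ sz ((x, s, N) : Inp')
    omega
  · show N ≤ sz ((x, s, N) : Inp')
    omega

/-- **RMC.** Restricted algorithms are algorithms. -/
theorem rmcS : RmcStmt := by
  intro A c e hF
  refine ⟨rmc A c, ?_, fun x s N => ⟨?_, fun b => ?_⟩⟩
  · intro w
    show (if (dec' w).1.length ≤ w.length then A.r (dec' w).1 else 0) ^ (e + 1) ≤ _
    split_ifs with h1
    · refine (hF (dec' w).1).trans (Nat.pow_le_pow_left ?_ e)
      have := Nat.log_mono_right (b := 2) h1
      omega
    · rw [zero_pow (by omega)]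
      exact Nat.zero_le _
  · show A.m (dec' (code x s N)).1 = A.m x
    rw [dec_code]
  · have hd := dec_code x s N
    have hlen := (code_length x s N).1
    have h2 : results (rmc A c) c (code x s N) b = results A c x (ov s b) := by
      unfold results
      have h1 : (rmc A c).r (code x s N) = A.r x := by
        show (if (dec' (code x s N)).1.length ≤ (code x s N).length then
          A.r (dec' (code x s N)).1 else 0) = _
        rw [hd, if_pos hlen]
      rw [h1]
      refine List.map_congr_left fun j _ => ?_
      have hb : bd c x ≤ bd c (code x s N) := by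
        unfold bd
        have := Nat.log_mono_right (b := 2) hlen
        gcongr
      have hT : (rmc A c).T (code x s N) = A.T x := by
        show A.T (dec' (code x s N)).1 = A.T x
        rw [hd]
      rw [hT]
      exact rsm (fun z => A.act (j, z)) (fun z => (rmc A c).act (j, z)) c x (code x s N) s b hb
        (fun i M a => by
          show actR (fun z => A.act (j, z)) c (dec' (code x s N)).1 (dec' (code x s N)).2.1 i M a =
            _
          rw [hd]) (A.T x) 0 []
    show A.out ((dec' (code x s N)).1, results (rmc A c) c (code x s N) b) = _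
    rw [h2, hd]

/-- **CTM.** Counting for restricted algorithms. -/
theorem ctm (hRmc : RmcStmt) : CtmStmt := by
  intro hApp A c e k hF
  obtain ⟨A', hF', hA'⟩ := hRmc A c e hF
  obtain ⟨f, hf, h⟩ := hApp c e (k + 2) A' hF'
  have hf' := Pool.Agent.Helper61.DT.PT_of_comp' hf
  have henc : PolyTime fun z : Inp' => encOf Inp' z := ⟨scomp_enc (encOf Inp')⟩
  have hfe : PolyTime fun z : Inp' => f (encOf Inp' z) := PolyTime.comp hf' henc
  have hD : PolyTime fun z : Inp' => Nat.log 2 (encOf Inp' z).length + 2 :=
    PolyTime.add (Pool.Agent.Helper61.DT.PT_log (PolyTime.length henc)) (PolyTime.const 2)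
  have hL : PolyTime fun z : Inp' => lg z.2.2 :=
    PolyTime.add (Pool.Agent.Helper61.DT.PT_log (by fun_prop)) (PolyTime.const 2)
  refine ⟨fun z => Pool.Agent.Helper9.AO.rd k (lg z.2.2) (Nat.log 2 (encOf Inp' z).length + 2)
    (f (encOf Inp' z)), ?_, fun x s N => ?_⟩
  · unfold Pool.Agent.Helper9.AO.rd
    exact PolyTime.div (PolyTime.add (PolyTime.mul (PolyTime.mul (PolyTime.const 2)
      (PolyTime.pow hL k)) hfe) (PolyTime.pow hD (k + 2)))
      (PolyTime.mul (PolyTime.const 2) (PolyTime.pow hD (k + 2)))
  · have h4 := h (code x s N)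
    obtain ⟨hm, hout⟩ := hA' x s N
    have h5 : (acc A' c (code x s N) : ℝ) / 2 ^ A'.m (code x s N) = phi A c x s := by
      have key : ∀ m : ℕ, m = A.m x → (Nat.card {y : Fin m → Bool //
          A'.out (code x s N, results A' c (code x s N) (coins y)) = true} : ℝ) / 2 ^ m =
          phi A c x s := by
        intro m hm
        subst hm
        unfold phi
        rw [pr_eq_card, Fintype.card_fun, Fintype.card_bool, Fintype.card_fin]
        push_cast
        have h3 : ∀ y : Fin (A.m x) → Bool,
            A'.out (code x s N, results A' c (code x s N) (coins y)) = true ↔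
              A.out (x, results A c x (ov s (coins y))) = true := by
          intro y
          rw [hout]
        rw [Nat.card_congr (Equiv.subtypeEquivRight h3)]
      exact key _ hm
    rw [h5] at h4
    refine Pool.Agent.Helper9.AO.rd_spec (by unfold lg; omega) ?_ h4
    have h6 := Nat.log_mono_right (b := 2) (code_length x s N).2
    show Nat.log 2 N + 2 ≤ Nat.log 2 (code x s N).length + 2
    omega

end Pool.Agent.Helper78.SM
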