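import Pool.Agent.Helper78.SM.Res
import Pool.Agent.Helper9.AO.MAP
import Pool.Agent.Helper39.DT.Apx

/-!
# SM-CNA: counting for restricted machines with memory
-/

set_option autoImplicit false

namespace Pool.Agent.Helper78.SM

open Pool.Agent.Helper81.CC Pool.Agent.Helper78.PM Pool.Agent.Helper78.DT
open Pool.Agent.Helper65.CS (ovr)
open scoped Classical

/-- The probability of the answer `true`, when the coins in `s` have the values in `s`. -/
noncomputable def Phi (A : Machine) (c : ℕ) (x : List Bool) (s : List (ℕ × Bool)) : ℝ :=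
  pr fun y : Fin (A.m x) → Bool => A.out (x, results A c x (coins (ovr s y))) = true

section
variable {γ : Type} [ToData γ]

theorem pt_cv {m v : γ → ℕ} {s : γ → List (ℕ × Bool)} {b : γ → Bool} (hm : PolyTime m)
    (hs : PolyTime s) (hv : PolyTime v) (hb : PolyTime b) :
    PolyTime fun c => cv (m c) (s c) (v c) (b c) := by
  unfold cv
  have h1 : PolyTime fun c => decide ((v c, true) ∈ s c) :=
    PolyTime.decide_mem (f := fun c => (v c, true)) (by fun_prop) hs
  have h2 : PolyTime fun c => decide ((v c, false) ∈ s c) :=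
    PolyTime.decide_mem (f := fun c => (v c, false)) (by fun_prop) hs
  have h3 : PolyTime fun c => decide (v c < m c) := PolyTime.decide_lt hv hm
  fun_prop

theorem pt_fixb {a : γ → List Bool → ℕ} {m : γ → ℕ} {s : γ → List (ℕ × Bool)}
    {raw : γ → List Bool} (ha : PolyTime fun z : γ × List Bool => a z.1 z.2) (hm : PolyTime m)
    (hs : PolyTime s) (hr : PolyTime raw) :
    PolyTime fun c => fixb (a c) (m c) (s c) (raw c) := by
  unfold fixb
  refine PolyTime.foldl_add (step := fun c (acc : List Bool) (b : Bool) =>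
    acc ++ [cv (m c) (s c) (a c acc - 4) b]) hr (by fun_prop) ?_ (C := fun _ => 4)
    (PBd.const 4) ?_
  · have h1 : PolyTime fun z : γ × List Bool × Bool => a z.1 z.2.1 - 4 :=
      PolyTime.sub (PolyTime.comp (g := fun z : γ × List Bool => a z.1 z.2)
        (f := fun z : γ × List Bool × Bool => (z.1, z.2.1)) ha (by fun_prop)) (by fun_prop)
    have h2 : PolyTime fun z : γ × List Bool × Bool =>
        cv (m z.1) (s z.1) (a z.1 z.2.1 - 4) z.2.2 :=
      pt_cv (PolyTime.comp hm (by fun_prop)) (PolyTime.comp hs (by fun_prop)) h1 (by fun_prop)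
    fun_prop
  · intro c acc b _
    have h1 := sz_append acc [cv (m c) (s c) (a c acc - 4) b]
    have h2 := sz_bool (cv (m c) (s c) (a c acc - 4) b)
    rw [sz_cons, sz_nil] at h1
    omega

theorem sz_bits_le (l : List Bool) : sz l ≤ 4 * l.length + 1 := by
  induction l with
  | nil => simp
  | cons b l ih =>
    rw [sz_cons, List.length_cons]
    have := sz_bool b
    omega

theorem pt_fixM {act : γ → View → ℕ} {x : γ → List Bool} {m : γ → ℕ}
    {s : γ → List (ℕ × Bool)} {M : γ → Mem}
    (ha : PolyTime fun z : γ × View => act z.1 z.2) (hx : PolyTime x) (hm : PolyTime m)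
    (hs : PolyTime s) (hM : PolyTime M) :
    PolyTime fun c => fixM (act c) (x c) (m c) (s c) (M c) := by
  unfold fixM
  refine PolyTime.foldl_add (step := fun c (N : Mem) (e : ℕ × List Bool) =>
    N ++ [(e.1, fixb (fun l => act c (x c, e.1, N, l)) (m c) (s c) e.2)]) hM (by fun_prop) ?_
    (C := fun c => 6 * sz (M c) + 6) ?_ ?_
  · have h1 : PolyTime fun z : γ × Mem × (ℕ × List Bool) =>
        fixb (fun l => act z.1 (x z.1, z.2.2.1, z.2.1, l)) (m z.1) (s z.1) z.2.2.2 := by
      refine pt_fixb (γ := γ × Mem × (ℕ × List Bool))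
        (a := fun z l => act z.1 (x z.1, z.2.2.1, z.2.1, l)) ?_ (PolyTime.comp hm (by fun_prop))
        (PolyTime.comp hs (by fun_prop)) (by fun_prop)
      have h2 : PolyTime fun w : (γ × Mem × (ℕ × List Bool)) × List Bool => x w.1.1 :=
        PolyTime.comp hx (by fun_prop)
      exact PolyTime.comp (g := fun z : γ × View => act z.1 z.2)
        (f := fun w : (γ × Mem × (ℕ × List Bool)) × List Bool =>
          (w.1.1, (x w.1.1, w.1.2.2.1, w.1.2.1, w.2))) ha (by fun_prop)
    fun_prop
  · exact ((PBd.const 6).mul (PBd.sz.comp hM)).add (PBd.const 6)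
  · intro c N e he
    have h1 := sz_append N [(e.1, fixb (fun l => act c (x c, e.1, N, l)) (m c) (s c) e.2)]
    have h2 := sz_bits_le (fixb (fun l => act c (x c, e.1, N, l)) (m c) (s c) e.2)
    rw [fixb_length] at h2
    have h3 := sz_le_of_mem he
    have h4 : sz e = 2 * e.1 + 1 + sz e.2 + 1 := by
      obtain ⟨i, l⟩ := e
      rw [sz_pair, sz_nat]
    have h5 := length_le_sz e.2
    rw [sz_cons, sz_nil, sz_pair, sz_nat] at h1
    omega

theorem pt_msize {M : γ → Mem} (hM : PolyTime M) : PolyTime fun c => msize (M c) := by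
  unfold msize
  refine PolyTime.sum (PolyTime.list_map (f := fun _ (e : ℕ × List Bool) => e.2.length) hM ?_)
  fun_prop

theorem pt_bd (k : ℕ) {x : γ → List Bool} (hx : PolyTime x) : PolyTime fun c => bd k (x c) := by
  unfold bd
  have h1 : PolyTime fun c => Nat.log 2 (x c).length :=
    Pool.Agent.Helper61.DT.PT_log (by fun_prop)
  fun_prop

theorem pt_ra (k : ℕ) {act : γ → View → ℕ} {x : γ → List Bool} {m : γ → ℕ}
    {s : γ → List (ℕ × Bool)} {w : γ → ℕ × Mem × List Bool}
    (ha : PolyTime fun z : γ × View => act z.1 z.2) (hx : PolyTime x) (hm : PolyTime m)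
    (hs : PolyTime s) (hw : PolyTime w) :
    PolyTime fun c => ra (act c) k (x c) (m c) (s c) (w c) := by
  have hM : PolyTime fun c => fixM (act c) (x c) (m c) (s c) (w c).2.1 :=
    pt_fixM ha hx hm hs (by fun_prop)
  have hl : PolyTime fun c => fixb (fun l => act c (x c, (w c).1,
      fixM (act c) (x c) (m c) (s c) (w c).2.1, l)) (m c) (s c) (w c).2.2 := by
    refine pt_fixb (a := fun c l => act c (x c, (w c).1,
      fixM (act c) (x c) (m c) (s c) (w c).2.1, l)) ?_ hm hs (by fun_prop)
    have h1 : PolyTime fun z : γ × List Bool =>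
        fixM (act z.1) (x z.1) (m z.1) (s z.1) (w z.1).2.1 := PolyTime.comp hM (by fun_prop)
    have h2 : PolyTime fun z : γ × List Bool => x z.1 := PolyTime.comp hx (by fun_prop)
    have h3 : PolyTime fun z : γ × List Bool => (w z.1).1 :=
      PolyTime.comp (g := fun c => (w c).1) (by fun_prop) (by fun_prop)
    exact PolyTime.comp (g := fun z : γ × View => act z.1 z.2)
      (f := fun z : γ × List Bool => (z.1, (x z.1, (w z.1).1,
        fixM (act z.1) (x z.1) (m z.1) (s z.1) (w z.1).2.1, z.2))) ha (by fun_prop)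
  have hv : PolyTime fun c => act c (x c, (w c).1, fixM (act c) (x c) (m c) (s c) (w c).2.1,
      fixb (fun l => act c (x c, (w c).1, fixM (act c) (x c) (m c) (s c) (w c).2.1, l)) (m c)
        (s c) (w c).2.2) :=
    PolyTime.comp (g := fun z : γ × View => act z.1 z.2)
      (f := fun c => (c, (x c, (w c).1, fixM (act c) (x c) (m c) (s c) (w c).2.1,
        fixb (fun l => act c (x c, (w c).1, fixM (act c) (x c) (m c) (s c) (w c).2.1, l)) (m c)
          (s c) (w c).2.2))) ha (by fun_prop)
  have hb : PolyTime fun c => bd k (x c) := pt_bd k hx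
  have hms : PolyTime fun c => msize (w c).2.1 := pt_msize (by fun_prop)
  have h1 : PolyTime fun c => decide (4 ≤ act (c) (x c, (w c).1,
      fixM (act c) (x c) (m c) (s c) (w c).2.1,
      fixb (fun l => act c (x c, (w c).1, fixM (act c) (x c) (m c) (s c) (w c).2.1, l)) (m c)
        (s c) (w c).2.2) ∧ bd k (x c) ≤ (w c).2.2.length) := by
    have h2 := PolyTime.decide_le (f := fun _ => 4) (by fun_prop) hv
    have h3 := PolyTime.decide_le hb (g := fun c => (w c).2.2.length) (by fun_prop)
    refine PolyTime.congr (PolyTime.and h2 h3) fun c => ?_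
    rw [Bool.decide_and]
  have h2 : PolyTime fun c => decide (act (c) (x c, (w c).1,
      fixM (act c) (x c) (m c) (s c) (w c).2.1,
      fixb (fun l => act c (x c, (w c).1, fixM (act c) (x c) (m c) (s c) (w c).2.1, l)) (m c)
        (s c) (w c).2.2) = 3 ∧ bd k (x c) < msize (w c).2.1 + (w c).2.2.length) := by
    have h2 := PolyTime.decide_eq (g := fun _ => 3) hv (by fun_prop)
    have h3 := PolyTime.decide_lt hb (g := fun c => msize (w c).2.1 + (w c).2.2.length)
      (by fun_prop)
    refine PolyTime.congr (PolyTime.and h2 h3) fun c => ?_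
    rw [Bool.decide_and]
  unfold ra
  exact PolyTime.itep h1 (by fun_prop) (PolyTime.itep h2 (by fun_prop) hv)

end

/-! ### The restricted machine -/

/-- The inputs of the restricted machine: the input, the list of the fixed coins, and a number (for
the length of the input). -/
abbrev Inp := List Bool × List (ℕ × Bool) × ℕ

/-- Decoding. -/
def dec (w : List Bool) : Inp := OfData.ofData (parse w)

theorem dec_enc (z : Inp) : dec (encOf Inp z) = z := by
  unfold dec
  show OfData.ofData (parse (toData z).enc) = z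
  rw [parse_enc, OfData.ofData_toData]

theorem dec_pt : PolyTime dec := by
  unfold dec
  fun_prop

/-- The restricted machine. -/
def rm (A : Machine) (c : ℕ) : Machine where
  m w := A.m (dec w).1
  T w := A.T (dec w).1
  r w := if (dec w).1.length ≤ w.length then A.r (dec w).1 else 0
  act y := ra (fun z => A.act (y.1, z)) c (dec y.2.1).1 (A.m (dec y.2.1).1) (dec y.2.1).2.1 y.2.2
  out y := A.out ((dec y.1).1, y.2)
  m_poly := by
    refine PolyTime.computable ?_
    have h1 : PolyTime fun w => (dec w).1 := PolyTime.comp (g := fun z : Inp => z.1)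
      (by fun_prop) dec_pt
    exact PolyTime.comp (g := A.m) (Pool.Agent.Helper61.DT.PT_of_comp' A.m_poly) h1
  T_poly := by
    refine PolyTime.computable ?_
    have h1 : PolyTime fun w => (dec w).1 := PolyTime.comp (g := fun z : Inp => z.1)
      (by fun_prop) dec_pt
    exact PolyTime.comp (g := A.T) (Pool.Agent.Helper61.DT.PT_of_comp' A.T_poly) h1
  r_poly := by
    refine PolyTime.computable ?_
    have h1 : PolyTime fun w => (dec w).1 := PolyTime.comp (g := fun z : Inp => z.1)
      (by fun_prop) dec_pt
    have h2 : PolyTime fun w => A.r (dec w).1 :=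
      PolyTime.comp (g := A.r) (Pool.Agent.Helper61.DT.PT_of_comp' A.r_poly) h1
    have h3 : PolyTime fun w => (dec w).1.length := PolyTime.length h1
    exact PolyTime.itep (PolyTime.decide_le h3 (by fun_prop)) h2 (by fun_prop)
  act_poly := by
    refine PolyTime.computable ?_
    have h0 : PolyTime fun y : ℕ × View => dec y.2.1 := PolyTime.comp dec_pt (by fun_prop)
    have h1 : PolyTime fun y : ℕ × View => (dec y.2.1).1 :=
      PolyTime.comp (g := fun z : Inp => z.1) (by fun_prop) h0
    have h2 : PolyTime fun y : ℕ × View => (dec y.2.1).2.1 :=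
      PolyTime.comp (g := fun z : Inp => z.2.1) (by fun_prop) h0
    have h3 : PolyTime fun y : ℕ × View => A.m (dec y.2.1).1 :=
      PolyTime.comp (g := A.m) (Pool.Agent.Helper61.DT.PT_of_comp' A.m_poly) h1
    have h4 : PolyTime fun z : (ℕ × View) × View => A.act (z.1.1, z.2) :=
      PolyTime.comp (g := A.act) (f := fun z : (ℕ × View) × View => (z.1.1, z.2))
        (Pool.Agent.Helper61.DT.PT_of_comp' A.act_poly) (by fun_prop)
    exact pt_ra c (act := fun (y : ℕ × View) z => A.act (y.1, z)) h4 h1 h3 h2 (by fun_prop)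
  out_poly := by
    refine PolyTime.computable ?_
    have h0 : PolyTime fun y : List Bool × List Bool => dec y.1 :=
      PolyTime.comp dec_pt (by fun_prop)
    have h1 : PolyTime fun y : List Bool × List Bool => (dec y.1).1 :=
      PolyTime.comp (g := fun z : Inp => z.1) (by fun_prop) h0
    exact PolyTime.comp (g := A.out) (f := fun y : List Bool × List Bool => ((dec y.1).1, y.2))
      (Pool.Agent.Helper61.DT.PT_of_comp' A.out_poly) (by fun_prop)

theorem rm_few {A : Machine} {e : ℕ} (c : ℕ) (h : Few e A) : Few e (rm A c) := by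
  intro w
  show (if (dec w).1.length ≤ w.length then A.r (dec w).1 else 0) ^ (e + 1) ≤ _
  split_ifs with h1
  · refine (h (dec w).1).trans (Nat.pow_le_pow_left ?_ e)
    have := Nat.log_mono_right (b := 2) h1
    omega
  · rw [zero_pow (by omega)]
    exact Nat.zero_le _

theorem rm_results (A : Machine) (c : ℕ) (w : List Bool) (h : (dec w).1.length ≤ w.length)
    (b : ℕ → Bool) : results (rm A c) c w b = results A c (dec w).1
      (fun v => cv (A.m (dec w).1) (dec w).2.1 v (b v)) := by
  unfold results
  have h1 : (rm A c).r w = A.r (dec w).1 := by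
    show (if (dec w).1.length ≤ w.length then A.r (dec w).1 else 0) = _
    rw [if_pos h]
  rw [h1]
  refine List.map_congr_left fun j _ => ?_
  have hb : bd c (dec w).1 ≤ bd c w := by
    unfold bd
    have := Nat.log_mono_right (b := 2) h
    gcongr
  exact run_fix (fun z => A.act (j, z)) c (dec w).1 w (A.m (dec w).1) (dec w).2.1
    (fun z => (rm A c).act (j, z)) (fun i M l => rfl) b hb (A.T (dec w).1) 0 []

theorem rm_acc (A : Machine) (c : ℕ) (w : List Bool) (h : (dec w).1.length ≤ w.length) :
    (acc (rm A c) c w : ℝ) / 2 ^ (rm A c).m w = Phi A c (dec w).1 (dec w).2.1 := by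
  unfold Phi acc
  rw [pr_eq_card, Fintype.card_fun, Fintype.card_bool, Fintype.card_fin]
  push_cast
  have h3 : ∀ y : Fin ((rm A c).m w) → Bool,
      (rm A c).out (w, results (rm A c) c w (coins y)) = true ↔
        A.out ((dec w).1, results A c (dec w).1
          (coins (ovr (dec w).2.1 (show Fin (A.m (dec w).1) → Bool from y)))) = true := by
    intro y
    rw [rm_results A c w h]
    show A.out ((dec w).1, _) = true ↔ _
    have h4 : (fun v => cv (A.m (dec w).1) (dec w).2.1 v (coins y v)) =
        coins (ovr (dec w).2.1 (show Fin (A.m (dec w).1) → Bool from y)) := by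
      funext v
      exact (coins_ovr (m := A.m (dec w).1) (dec w).2.1 y v).symm
    rw [h4]
  rw [Nat.card_congr (Equiv.subtypeEquivRight h3)]
  rfl

/-- **CNA.** Counting for the restrictions of a machine. -/
theorem cna (A : Machine) (c e k : ℕ) (hF : Few e A) :
    ∃ g : List Bool × List (ℕ × Bool) × ℕ → ℕ, PolyTime g ∧
      ∀ (x : List Bool) (s : List (ℕ × Bool)) (N : ℕ),
        |(g (x, s, N) : ℝ) / (lg N : ℝ) ^ k - Phi A c x s| ≤ 1 / (lg N : ℝ) ^ k := by
  obtain ⟨f, hf, h⟩ := (Pool.Agent.Helper78.PM.main c e (k + 2)).1 (rm A c) (rm_few c hF)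
  have hf' := Pool.Agent.Helper61.DT.PT_of_comp' hf
  have henc : PolyTime fun z : Inp => encOf Inp z := ⟨scomp_enc (encOf Inp)⟩
  have hfe : PolyTime fun z : Inp => f (encOf Inp z) := PolyTime.comp hf' henc
  have hD : PolyTime fun z : Inp => Nat.log 2 (encOf Inp z).length + 2 :=
    PolyTime.add (Pool.Agent.Helper61.DT.PT_log (PolyTime.length henc)) (PolyTime.const 2)
  have hL : PolyTime fun z : Inp => lg z.2.2 :=
    PolyTime.add (Pool.Agent.Helper61.DT.PT_log (by fun_prop)) (PolyTime.const 2)
  refine ⟨fun z => Pool.Agent.Helper9.AO.rd k (lg z.2.2) (Nat.log 2 (encOf Inp z).length + 2)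
    (f (encOf Inp z)), ?_, fun x s N => ?_⟩
  · unfold Pool.Agent.Helper9.AO.rd
    exact PolyTime.div (PolyTime.add (PolyTime.mul (PolyTime.mul (PolyTime.const 2)
      (PolyTime.pow hL k)) hfe) (PolyTime.pow hD (k + 2)))
      (PolyTime.mul (PolyTime.const 2) (PolyTime.pow hD (k + 2)))
  · have h0 : dec (encOf Inp (x, s, N)) = (x, s, N) := dec_enc _
    have h1 : sz ((x, s, N) : Inp) = sz x + (sz s + (2 * N + 1) + 1) + 1 := by
      rw [sz_pair, sz_pair, sz_nat]
    have h2 : x.length ≤ (encOf Inp (x, s, N)).length := by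
      have := length_le_sz x
      show x.length ≤ sz ((x, s, N) : Inp)
      omega
    have h3 : N ≤ (encOf Inp (x, s, N)).length := by
      show N ≤ sz ((x, s, N) : Inp)
      omega
    have h4 := h (encOf Inp (x, s, N))
    have h5 := rm_acc A c (encOf Inp (x, s, N)) (by rw [h0]; exact h2)
    rw [h5, h0] at h4
    refine Pool.Agent.Helper9.AO.rd_spec (by unfold lg; omega) ?_ h4
    have h6 := Nat.log_mono_right (b := 2) h3
    show Nat.log 2 N + 2 ≤ Nat.log 2 (encOf Inp (x, s, N)).length + 2
    omega

end Pool.Agent.Helper78.SM
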