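import Pool.Agent.Helper78.ME.Defs
import Mathlib.Analysis.SpecialFunctions.Pow.Real

/-!
# Turing machines with several heads on a tape of dimension `D`: the bounds of the theorem
-/

namespace Pool.Agent.Helper78.ME

variable {D k : ℕ}

/-- After the step `t` the head number `0` is on a cell which it has not visited since the last change
of the content of a cell (for a machine with one head every step which changes the content of a cell
has this property). -/
def Heads.New (A : Heads D k) (w y : List Bool) (t : ℕ) : Prop :=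
  ∀ u ≤ t, (A.conf w y u).h 0 = (A.conf w y (t + 1)).h 0 →
    ∃ v, u ≤ v ∧ v ≤ t ∧ (A.conf w y (v + 1)).M ≠ (A.conf w y v).M

/-- The number of the steps before the time `r` after which the head number `0` is on a cell which it
has not visited since the last change of the content of a cell. -/
noncomputable def Heads.work (A : Heads D k) (w y : List Bool) (r : ℕ) : ℕ :=
  {t : ℕ | t < r ∧ A.New w y t}.ncard

/-- `A` accepts the input word `w` of length `n` with the guessed word `y` at some time `r`, with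
states, addresses and contents of cells of at most `s` bits, and within one of the following bounds,
where `ℓ = ⌊log₂ n⌋ + 1`. Either
`r s ^ (D / (2 D - 1)) ℓ ^ 5 ≤ C (n + 1) ^ ((3 D - 1) / (2 D - 1))` and `s ℓ ^ 2 ≤ C (n + 1)`; or the
machine has only one head, and there are numbers `x` and `h` such that at most `x` of the `r` steps
lead to a cell which the head has not visited since the last change of the content of a cell (the
other steps are free, but `r ≤ 2 ^ h (x + 1)`), and for `l = h + ℓ`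
`x s ^ (1 + 1 / D) l ^ 4 ≤ C (n + 1) ^ (3 / 2 + 1 / D)` and `(s + l) (h + 1) l ≤ C (n + 1) ^ (1 / 2)`. -/
def Heads.Within (A : Heads D k) (C : ℝ) (w y : List Bool) : Prop :=
  (∃ r s : ℕ,
    (r : ℝ) * (s : ℝ) ^ ((D : ℝ) / (2 * (D : ℝ) - 1)) * ((Nat.log 2 w.length : ℝ) + 1) ^ 5 ≤
      C * ((w.length : ℝ) + 1) ^ ((3 * (D : ℝ) - 1) / (2 * (D : ℝ) - 1)) ∧
    (s : ℝ) * ((Nat.log 2 w.length : ℝ) + 1) ^ 2 ≤ C * ((w.length : ℝ) + 1) ∧
    A.Fits w y r s ∧ A.AcceptsAt w y r) ∨
  (k = 1 ∧ ∃ r s x h : ℕ, A.work w y r ≤ x ∧ r ≤ 2 ^ h * (x + 1) ∧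
    (x : ℝ) * (s : ℝ) ^ (1 + 1 / (D : ℝ)) * ((h : ℝ) + ((Nat.log 2 w.length : ℝ) + 1)) ^ 4 ≤
      C * ((w.length : ℝ) + 1) ^ ((3 : ℝ) / 2 + 1 / (D : ℝ)) ∧
    ((s : ℝ) + ((h : ℝ) + ((Nat.log 2 w.length : ℝ) + 1))) * ((h : ℝ) + 1) *
      ((h : ℝ) + ((Nat.log 2 w.length : ℝ) + 1)) ≤ C * ((w.length : ℝ) + 1) ^ ((1 : ℝ) / 2) ∧
    A.Fits w y r s ∧ A.AcceptsAt w y r)

end Pool.Agent.Helper78.ME
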