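import Pool.Agent.Helper78.SM.Main
import Pool.Agent.Helper78.ME.Final
import Pool.Agent.Helper65.OH.GEO
import Pool.Agent.Helper75.OH.STEP
import Pool.Agent.Helper24.OH2.CROSS2
import Pool.Agent.Helper94.OH2.MCOR2
import Pool.Agent.Helper25.OH2.PAR2
import Pool.Agent.Helper59.OH.PAR5
import Pool.Agent.Helper28.Few.Final

/-!
# All parts of the simulation
-/

namespace Pool.Agent.Helper78.ME

theorem parts2 : Pool.Agent.Helper65.OH.Parts2 where
  CROSS2 := Pool.Agent.Helper24.OH2.CROSS2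
  MCOR2 := Pool.Agent.Helper94.OH2.MCOR2 Pool.Agent.Helper65.OH.GEO
    (Pool.Agent.Helper75.OH.STEP Pool.Agent.Helper65.OH.GEO)
  PAR2 := Pool.Agent.Helper25.OH2.PAR2
  PAR5 := Pool.Agent.Helper59.OH.PAR5

end Pool.Agent.Helper78.ME
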