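import Pool.Agent.Helper78.SM.Defs
import Pool.Agent.Helper78.ME.Main
import Pool.Agent.Helper65.OH2.Main

/-!
# Machines with heads on tapes of any dimension: one hard language for all machines
-/

set_option exponentiation.threshold 50000

namespace Pool.Agent.Helper78.ME

open Pool.Agent.Helper65.LinSpace Pool.Agent.Helper78.Mpc Pool.Agent.Helper28.Ram Finset Filter
open Pool.Agent.Helper65.OH (OneHead letW mv acc2 NT2 Parts2 exists_good2)
open Pool.Agent.Helper28.Few (Sim)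

/-! ### Machines with one head -/

/-- The same machine in the other model. -/
def Heads.one {D : ℕ} (A : Heads D 1) : OneHead D :=
  ⟨A.start, A.addr, A.next, A.write, A.addr_lin, A.next_lin, A.write_lin⟩

theorem act_one (D : ℕ) (q : List Bool) : act D 1 q = 0 := by
  unfold act
  simp

theorem Heads.one_conf {D : ℕ} (A : Heads D 1) (w y : List Bool) (t : ℕ) :
    (A.one.conf w y t).q = (A.conf w y t).q ∧ (A.one.conf w y t).h = (A.conf w y t).h 0 ∧
      (A.one.conf w y t).M = (A.conf w y t).M := by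
  induction t with
  | zero => exact ⟨rfl, rfl, rfl⟩
  | succ t ih =>
    obtain ⟨h1, h2, h3⟩ := ih
    have e : ∀ q v, A.one.inp w y q v = A.inp w y q v := fun q v => rfl
    have e4 : (A.one.conf w y (t + 1)) = A.one.step w y (A.one.conf w y t) := rfl
    have e5 : (A.conf w y (t + 1)) = A.step w y (A.conf w y t) := rfl
    rw [e4, e5]
    unfold Pool.Agent.Helper65.OH.OneHead.step Heads.step
    simp only [act_one, e, h1, h2, h3, Function.update_self]
    refine ⟨rfl, ?_, ?_⟩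
    · funext i
      rfl
    · funext z
      by_cases h : z = (A.conf w y t).h 0
      · subst h
        simp only [Function.update_self]
        rfl
      · simp only [Function.update_of_ne h]

theorem Heads.one_accepts {D : ℕ} (A : Heads D 1) (w y : List Bool) (r : ℕ) :
    A.one.AcceptsAt w y r ↔ A.AcceptsAt w y r := by
  unfold Pool.Agent.Helper65.OH.OneHead.AcceptsAt Heads.AcceptsAt
  rw [(A.one_conf w y r).1]

theorem Heads.one_fits {D : ℕ} (A : Heads D 1) (w y : List Bool) (r s : ℕ) :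
    A.one.Fits w y r s ↔ A.Fits w y r s := by
  unfold Pool.Agent.Helper65.OH.OneHead.Fits Heads.Fits
  refine forall₂_congr fun t _ => ?_
  rw [(A.one_conf w y t).1, (A.one_conf w y t).2.2]
  rfl

theorem Heads.one_new {D : ℕ} (A : Heads D 1) (w y : List Bool) (t : ℕ) :
    A.one.New w y t ↔ A.New w y t := by
  unfold Pool.Agent.Helper65.OH.OneHead.New Heads.New
  refine forall₂_congr fun u _ => ?_
  rw [(A.one_conf w y u).2.1, (A.one_conf w y (t + 1)).2.1]
  refine imp_congr_right fun _ => exists_congr fun v => ?_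
  rw [(A.one_conf w y v).2.2, (A.one_conf w y (v + 1)).2.2]

theorem Heads.one_work {D : ℕ} (A : Heads D 1) (w y : List Bool) (r : ℕ) :
    A.one.work w y r = A.work w y r := by
  unfold Pool.Agent.Helper65.OH.OneHead.work Heads.work
  simp only [A.one_new]

/-! ### The simulation -/

/-- The simulation for both kinds of bounds. -/
noncomputable def acc3 (P : Sim) (e x y T : ℕ) : ℕ :=
  (Nat.unpair e).1 * (lt01 T (NT2 x) * acc2 P (Nat.unpair (Nat.unpair e).2).1 x y T) +
    lt01 T (ME.NT x) * acc (Nat.unpair (Nat.unpair e).2).2 x y T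

/-- The number of codes of parameters. -/
def NT3 (x : ℕ) : ℕ := NT2 x + ME.NT x

theorem LS.NT3 : LS ME.NT3 := LS.add Pool.Agent.Helper65.OH.LS.NT2 LS.NT

theorem LS.acc3 (P : Sim) (H : Parts) :
    LS (fun z : ℕ × ℕ × ℕ × ℕ => acc3 P z.1 z.2.1 z.2.2.1 z.2.2.2) := by
  have hT : LS (fun z : ℕ × ℕ × ℕ × ℕ => z.2.2.2) := by fun_prop
  have h0 : LS (fun z : ℕ × ℕ × ℕ × ℕ => (Nat.unpair z.1).1) := by fun_prop
  have h1 : LS (fun z : ℕ × ℕ × ℕ × ℕ => ((Nat.unpair (Nat.unpair z.1).2).1, z.2.1, z.2.2.1,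
    z.2.2.2)) := by fun_prop
  have h2 : LS (fun z : ℕ × ℕ × ℕ × ℕ => ((Nat.unpair (Nat.unpair z.1).2).2, z.2.1, z.2.2.1,
    z.2.2.2)) := by fun_prop
  have hN2 : LS (fun z : ℕ × ℕ × ℕ × ℕ => NT2 z.2.1) :=
    LS.comp (f := fun z : ℕ × ℕ × ℕ × ℕ => z.2.1) Pool.Agent.Helper65.OH.LS.NT2 (by fun_prop)
  have hN : LS (fun z : ℕ × ℕ × ℕ × ℕ => ME.NT z.2.1) :=
    LS.comp (f := fun z : ℕ × ℕ × ℕ × ℕ => z.2.1) LS.NT (by fun_prop)
  have a2 := LS.comp (f := fun z : ℕ × ℕ × ℕ × ℕ => ((Nat.unpair (Nat.unpair z.1).2).1, z.2.1,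
    z.2.2.1, z.2.2.2)) (Pool.Agent.Helper65.OH.LS.acc2 P) h1
  have a1 := LS.comp (f := fun z : ℕ × ℕ × ℕ × ℕ => ((Nat.unpair (Nat.unpair z.1).2).2, z.2.1,
    z.2.2.1, z.2.2.2)) (LS.acc H) h2
  unfold ME.acc3
  exact LS.add (LS.mul h0 (LS.mul (LS.lt01 hT hN2) a2)) (LS.mul (LS.lt01 hT hN) a1)

/-- Every machine has a code. -/
theorem exists_good3 (P : Sim) (H2 : Parts2) (H : Parts) {D k : ℕ} (hD : 0 < D) (hk : 0 < k)
    (A : Heads D k) (C : ℝ) : ∃ e n₀ : ℕ, ∀ w y : List Bool, n₀ ≤ w.length →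
    (∀ T < NT3 (num w), acc3 P e (num w) (num y) T ≠ 0 → ∃ r, A.AcceptsAt w y r) ∧
    (A.Within C w y → ∃ T < NT3 (num w), acc3 P e (num w) (num y) T ≠ 0) := by
  obtain ⟨e, n₀, he⟩ := exists_good H hD hk A C
  have hpos : ∀ w : List Bool, (0 : ℝ) < ((Nat.log 2 w.length : ℝ) + 1) := fun w => by positivity
  have hG : ∀ w y : List Bool, (∃ r s : ℕ,
    (r : ℝ) * (s : ℝ) ^ ((D : ℝ) / (2 * (D : ℝ) - 1)) * ((Nat.log 2 w.length : ℝ) + 1) ^ 5 ≤
      C * ((w.length : ℝ) + 1) ^ ((3 * (D : ℝ) - 1) / (2 * (D : ℝ) - 1)) ∧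
    (s : ℝ) * ((Nat.log 2 w.length : ℝ) + 1) ^ 2 ≤ C * ((w.length : ℝ) + 1) ∧
    A.Fits w y r s ∧ A.AcceptsAt w y r) → GoodB A C w y := by
    rintro w y ⟨r, s, h1, h2, h3, h4⟩
    refine ⟨r, s, ?_, ?_, h3, h4⟩
    · rw [le_div_iff₀ (pow_pos (hpos w) 5)]
      exact h1
    · rw [le_div_iff₀ (pow_pos (hpos w) 2)]
      exact h2
  by_cases hk1 : k = 1
  · subst hk1
    obtain ⟨e', n₁, he'⟩ := exists_good2 P H2 hD A.one C
    refine ⟨Nat.pair 1 (Nat.pair e' e), n₀ + n₁, fun w y hw => ⟨fun T _ hne => ?_, ?_⟩⟩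
    · unfold acc3 at hne
      simp only [Nat.unpair_pair, one_mul] at hne
      by_cases h1 : lt01 T (NT2 (num w)) * acc2 P e' (num w) (num y) T = 0
      · rw [h1, zero_add] at hne
        have h2 : T < ME.NT (num w) := by
          by_contra h
          exact hne (by rw [lt01, if_neg h, zero_mul])
        exact (he w y (by omega)).1 T h2 fun h => hne (by rw [h, mul_zero])
      · have h2 : T < NT2 (num w) := by
          by_contra h
          exact h1 (by rw [lt01, if_neg h, zero_mul])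
        obtain ⟨r, hr⟩ := (he' w y (by omega)).1 T h2 fun h => h1 (by rw [h, mul_zero])
        exact ⟨r, (A.one_accepts w y r).1 hr⟩
    · rintro (h | ⟨-, r, s, x, h, h1, h2, h3, h4, h5, h6⟩)
      · obtain ⟨T, hT, hne⟩ := (he w y (by omega)).2 (hG w y h)
        refine ⟨T, ?_, ?_⟩
        · unfold NT3
          omega
        · unfold acc3
          simp only [Nat.unpair_pair, one_mul]
          rw [lt01, lt01, if_pos hT, one_mul]
          omega
      · obtain ⟨T, hT, hne⟩ := (he' w y (by omega)).2 ⟨r, s, x, h, by rw [A.one_work]; exact h1,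
          h2, h3, h4, (A.one_fits w y r s).2 h5, (A.one_accepts w y r).2 h6⟩
        refine ⟨T, ?_, ?_⟩
        · unfold NT3
          omega
        · unfold acc3
          simp only [Nat.unpair_pair, one_mul]
          rw [lt01, if_pos hT, one_mul]
          omega
  · refine ⟨Nat.pair 0 (Nat.pair 0 e), n₀, fun w y hw => ⟨fun T _ hne => ?_, ?_⟩⟩
    · unfold acc3 at hne
      simp only [Nat.unpair_pair, zero_mul, zero_add] at hne
      have h2 : T < ME.NT (num w) := by
        by_contra h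
        exact hne (by rw [lt01, if_neg h, zero_mul])
      exact (he w y hw).1 T h2 fun h => hne (by rw [h, mul_zero])
    · rintro (h | ⟨h, -⟩)
      · obtain ⟨T, hT, hne⟩ := (he w y hw).2 (hG w y h)
        refine ⟨T, ?_, ?_⟩
        · unfold NT3
          omega
        · unfold acc3
          simp only [Nat.unpair_pair, zero_mul, zero_add]
          rw [lt01, if_pos hT, one_mul]
          exact hne
      · exact absurd h hk1

/-- **Average-case hardness for machines with heads on tapes of any dimension.** -/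
theorem sm_main (P : Sim) (H2 : Parts2) (H : Parts) (c : ℕ) :
    ∃ (L : Set (List Bool)) (s : ℕ → List Bool), DLINSPACE L ∧
      (∀ n, (s n).length = n) ∧
      (∀ w, w ∈ L ↔ Odd ((List.zipWith and (s w.length) w).count true)) ∧
      ∀ (D k : ℕ), 0 < D → 0 < k → ∀ (A : Heads D k) (C : ℝ), ∃ c' : ℝ,
        ∀ (n : ℕ) (α : List Bool), ∀ M, M = L ∨ M = Lᶜ →
        ({w : List Bool | w.length = n ∧
          (∀ v r, A.AcceptsAt w (α ++ v) r → w ∈ M) ∧
          (w ∈ M → ∃ v : List Bool, v.length ≤ c * n ∧ A.Within C w (α ++ v))}.ncard : ℝ) ≤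
          2 ^ n / 2 + c' * ((min α.length (n - α.length) : ℕ) + 1) *
            2 ^ (((n : ℝ) + α.length) / 2) := by
  obtain ⟨L, s, h1, h2, h3, h4⟩ := Pool.Agent.Helper28.Gen.avg_main (acc3 P) NT3 (LS.acc3 P H)
    LS.NT3 c
  refine ⟨L, s, h1, h2, h3, fun D k hD hk A C => ?_⟩
  obtain ⟨c', hc'⟩ := h4 (fun w y => ∃ r, A.AcceptsAt w y r) (A.Within C)
    (exists_good3 P H2 H hD hk A C)
  refine ⟨c', fun n α M hM => ?_⟩
  refine le_trans ?_ (hc' n α M hM)
  have hfin : ({w : List Bool | w.length = n ∧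
      (∀ v, (∃ r, A.AcceptsAt w (α ++ v) r) → w ∈ M) ∧
      (w ∈ M → ∃ v : List Bool, v.length ≤ c * n ∧ A.Within C w (α ++ v))}).Finite :=
    (List.finite_length_eq Bool n).subset fun w hw => hw.1
  refine Nat.cast_le.2 (Set.ncard_le_ncard ?_ hfin)
  rintro w ⟨hw, hw1, hw2⟩
  exact ⟨hw, fun v ⟨r, hr⟩ => hw1 v r hr, hw2⟩

/-- Languages accepted by fast machines are in linear space. -/
theorem sm_lin (P : Sim) (H2 : Parts2) (H : Parts) (c : ℕ) {D k : ℕ} (hD : 0 < D) (hk : 0 < k)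
    (A : Heads D k) (L : Set (List Bool)) (C : ℝ) (h1 : ∀ w y r, A.AcceptsAt w y r → w ∈ L)
    (h2 : ∀ w ∈ L, ∃ y : List Bool, y.length ≤ c * w.length ∧ A.Within C w y) : DLINSPACE L :=
  Pool.Agent.Helper28.Gen.lin_main (acc3 P) NT3 (LS.acc3 P H) LS.NT3 c L
    (fun w y => ∃ r, A.AcceptsAt w y r) (A.Within C) (exists_good3 P H2 H hD hk A C)
    (fun w y ⟨r, hr⟩ => h1 w y r hr) h2

end Pool.Agent.Helper78.ME
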