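import Pool.Agent.Helper78.PM.Final
import Pool.Agent.Helper65.CS.Core
import Pool.Agent.Helper81.CompC
import Pool.Agent.Helper61.DT.GAP

/-!
# SM: restriction of a machine with memory

The restricted machine reads the same coins, and corrects the values of the coins in `s`.
-/

set_option autoImplicit false

namespace Pool.Agent.Helper78.SM

open Pool.Agent.Helper81.CC Pool.Agent.Helper78.PM
open Pool.Agent.Helper65.CS (ovr)

/-- The corrected value of the coin `v`. -/
def cv (m : ℕ) (s : List (ℕ × Bool)) (v : ℕ) (b : Bool) : Bool :=
  decide (v < m) && (decide ((v, true) ∈ s) || (!decide ((v, false) ∈ s) && b))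

theorem coins_ovr {m : ℕ} (s : List (ℕ × Bool)) (y : Fin m → Bool) (v : ℕ) :
    coins (ovr s y) v = cv m s v (coins y v) := by
  unfold coins ovr cv
  by_cases h : v < m
  · rw [dif_pos h, dif_pos h]
    by_cases h1 : (v, true) ∈ s
    · simp [h, h1]
    · by_cases h2 : (v, false) ∈ s <;> simp [h, h1, h2]
  · rw [dif_neg h]
    simp [h]

/-- Correction of the bits read by a stage; `a` gives the next action. -/
def fixb (a : List Bool → ℕ) (m : ℕ) (s : List (ℕ × Bool)) (raw : List Bool) : List Bool :=
  raw.foldl (fun acc b => acc ++ [cv m s (a acc - 4) b]) []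

/-- Correction of a memory. -/
def fixM (act : View → ℕ) (x : List Bool) (m : ℕ) (s : List (ℕ × Bool)) (M : Mem) : Mem :=
  M.foldl (fun N e => N ++ [(e.1, fixb (fun l => act (x, e.1, N, l)) m s e.2)]) []

theorem fixb_append (a : List Bool → ℕ) (m : ℕ) (s : List (ℕ × Bool)) (raw : List Bool)
    (b : Bool) : fixb a m s (raw ++ [b]) =
      fixb a m s raw ++ [cv m s (a (fixb a m s raw) - 4) b] := by
  unfold fixb
  rw [List.foldl_append]
  rfl

theorem fixb_length (a : List Bool → ℕ) (m : ℕ) (s : List (ℕ × Bool)) (raw : List Bool) :
    (fixb a m s raw).length = raw.length := by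
  induction raw using List.reverseRecOn with
  | nil => rfl
  | append_singleton l b ih => rw [fixb_append]; simp [ih]

theorem fixM_append (act : View → ℕ) (x : List Bool) (m : ℕ) (s : List (ℕ × Bool)) (M : Mem)
    (e : ℕ × List Bool) : fixM act x m s (M ++ [e]) =
      fixM act x m s M ++ [(e.1, fixb (fun l => act (x, e.1, fixM act x m s M, l)) m s e.2)] := by
  unfold fixM
  rw [List.foldl_append]
  rfl

theorem fixM_msize (act : View → ℕ) (x : List Bool) (m : ℕ) (s : List (ℕ × Bool)) (M : Mem) :
    msize (fixM act x m s M) = msize M := by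
  induction M using List.reverseRecOn with
  | nil => rfl
  | append_singleton l b ih =>
    rw [fixM_append]
    unfold msize at *
    simp [ih, fixb_length]

/-- The next action of the restricted stage. -/
def ra (act : View → ℕ) (c : ℕ) (x : List Bool) (m : ℕ) (s : List (ℕ × Bool))
    (w : ℕ × Mem × List Bool) : ℕ :=
  if 4 ≤ act (x, w.1, fixM act x m s w.2.1,
      fixb (fun l => act (x, w.1, fixM act x m s w.2.1, l)) m s w.2.2) ∧ bd c x ≤ w.2.2.length then 0
  else if act (x, w.1, fixM act x m s w.2.1,
      fixb (fun l => act (x, w.1, fixM act x m s w.2.1, l)) m s w.2.2) = 3 ∧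
      bd c x < msize w.2.1 + w.2.2.length then 0
  else act (x, w.1, fixM act x m s w.2.1,
      fixb (fun l => act (x, w.1, fixM act x m s w.2.1, l)) m s w.2.2)

theorem bits_length (a : View → ℕ) (z : List Bool) (b : ℕ → Bool) (i : ℕ) (M : Mem) (k : ℕ) :
    (bits a z b i M k).length ≤ k := by
  induction k with
  | zero => simp [bits]
  | succ k ih =>
    rw [bits]
    split_ifs
    · simp; omega
    · omega

theorem bits_stop (a : View → ℕ) (z : List Bool) (b : ℕ → Bool) (i : ℕ) (M : Mem) (k : ℕ) :
    4 ≤ a (z, i, M, bits a z b i M k) → (bits a z b i M k).length = k := by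
  induction k with
  | zero => intro _; rfl
  | succ k ih =>
    intro h
    rw [bits] at h ⊢
    by_cases h1 : 4 ≤ a (z, i, M, bits a z b i M k)
    · rw [if_pos h1]
      simp [ih h1]
    · rw [if_neg h1] at h
      exact absurd h h1

section
variable (act : View → ℕ) (c : ℕ) (x x' : List Bool) (m : ℕ) (s : List (ℕ × Bool))
  (act' : View → ℕ) (hact : ∀ i M l, act' (x', i, M, l) = ra act c x m s (i, M, l))
  (b : ℕ → Bool)
include hact

theorem bits_fix (i : ℕ) (M : Mem) (k : ℕ) (hk : k ≤ bd c x) :
    fixb (fun l => act (x, i, fixM act x m s M, l)) m s (bits act' x' b i M k) =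
      bits act x (fun v => cv m s v (b v)) i (fixM act x m s M) k ∧
    (bits act' x' b i M k).length =
      (bits act x (fun v => cv m s v (b v)) i (fixM act x m s M) k).length := by
  induction k with
  | zero => exact ⟨rfl, rfl⟩
  | succ k ih =>
    obtain ⟨h1, h2⟩ := ih (by omega)
    rw [bits, bits]
    have h3 : (bits act' x' b i M k).length ≤ k := bits_length act' x' b i M k
    have h4 : act' (x', i, M, bits act' x' b i M k) =
        if act (x, i, fixM act x m s M,
          bits act x (fun v => cv m s v (b v)) i (fixM act x m s M) k) = 3 ∧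
          bd c x < msize M + (bits act' x' b i M k).length then 0 else
        act (x, i, fixM act x m s M,
          bits act x (fun v => cv m s v (b v)) i (fixM act x m s M) k) := by
      rw [hact]
      unfold ra
      simp only [h1]
      rw [if_neg (by omega)]
    by_cases h5 : 4 ≤ act (x, i, fixM act x m s M,
          bits act x (fun v => cv m s v (b v)) i (fixM act x m s M) k)
    · rw [if_neg (by omega)] at h4
      rw [h4, if_pos h5, if_pos h5]
      refine ⟨?_, by simp [h2]⟩
      rw [fixb_append, h1]
    · have h6 : ¬ 4 ≤ act' (x', i, M, bits act' x' b i M k) := by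
        rw [h4]
        split_ifs <;> omega
      rw [if_neg h5, if_neg h6]
      exact ⟨h1, h2⟩

theorem bits_bd (i : ℕ) (M : Mem) (k : ℕ) (hk : bd c x ≤ k) :
    bits act' x' b i M k = bits act' x' b i M (bd c x) := by
  induction k, hk using Nat.le_induction with
  | base => rfl
  | succ k hk ih =>
    rw [bits, ih]
    rw [if_neg]
    intro h
    have h1 := bits_stop act' x' b i M (bd c x) h
    rw [hact] at h
    unfold ra at h
    split_ifs at h with h2 h3
    · omega
    · omega
    · exact h2 ⟨h, h1.ge⟩

theorem run_fix (hx : bd c x ≤ bd c x') (n i : ℕ) (M : Mem) :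
    run act' c x' b n i M =
      run act c x (fun v => cv m s v (b v)) n i (fixM act x m s M) := by
  induction n generalizing i M with
  | zero => rfl
  | succ n ih =>
    rw [run, run, bits_bd act c x x' m s act' hact b i M _ hx]
    obtain ⟨h1, h2⟩ := bits_fix act c x x' m s act' hact b i M (bd c x) le_rfl
    have h3 := bits_length act' x' b i M (bd c x)
    have h4 : act' (x', i, M, bits act' x' b i M (bd c x)) =
        ra act c x m s (i, M, bits act' x' b i M (bd c x)) := hact _ _ _
    unfold ra at h4
    simp only [h1] at h4
    have h7 := bits_stop act x (fun v => cv m s v (b v)) i (fixM act x m s M) (bd c x)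
    have h8 : fixM act x m s (M ++ [(i, bits act' x' b i M (bd c x))]) = fixM act x m s M ++
        [(i, bits act x (fun v => cv m s v (b v)) i (fixM act x m s M) (bd c x))] := by
      rw [fixM_append, h1]
    rw [fixM_msize, ih, ih, h8, h4]
    clear h4 h8 ih h1
    generalize bits act x (fun v => cv m s v (b v)) i (fixM act x m s M) (bd c x) = l at *
    generalize bits act' x' b i M (bd c x) = raw at *
    generalize act (x, i, fixM act x m s M, l) = v at *
    generalize run act c x (fun v => cv m s v (b v)) n (i + 1) (fixM act x m s M) = R0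
    generalize run act c x (fun v => cv m s v (b v)) n (i + 1)
      (fixM act x m s M ++ [(i, l)]) = R1
    by_cases hv1 : v = 1
    · subst hv1; simp
    by_cases hv2 : v = 2
    · subst hv2; simp
    by_cases hv3 : v = 3
    · subst hv3
      by_cases h9 : bd c x < msize M + raw.length
      · have h10 : ¬ msize M + l.length ≤ bd c x := by omega
        simp [h9, h10]
      · have h10 : msize M + l.length ≤ bd c x := by omega
        have h11 : msize M + raw.length ≤ bd c x' := by omega
        simp [h9, h10, h11]
    · by_cases h9 : 4 ≤ v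
      · have h10 := h7 h9
        have h11 : bd c x ≤ raw.length := by omega
        simp [h9, h11, hv1, hv2, hv3]
      · have h12 : v = 0 := by omega
        subst h12
        simp

end

end Pool.Agent.Helper78.SM
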